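import Mathlib

/-! Markov-modulated Poisson processes: matrices only. -/

namespace Pool.R957.Mmpp

open Matrix

/-- Irreducible generator on `Fin p`: nonnegative off-diagonal entries, zero row sums, and every
state can be reached from every other through positive entries. -/
structure IsGen {p : ℕ} (Q : Matrix (Fin p) (Fin p) ℝ) : Prop where
  offdiag : ∀ i j, i ≠ j → 0 ≤ Q i j
  rowsum : ∀ i, ∑ j, Q i j = 0
  irred : ∀ i j, Relation.ReflTransGen (fun a b => 0 < Q a b) i j

/-- The data of an MMPP of order `p`. -/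
structure MMPP (p : ℕ) where
  /-- generator of the background chain -/
  Q : Matrix (Fin p) (Fin p) ℝ
  /-- arrival rates -/
  lam : Fin p → ℝ
  gen : IsGen Q
  lam_nonneg : ∀ i, 0 ≤ lam i
  lam_ne : ∃ i, lam i ≠ 0

namespace MMPP

variable {p : ℕ} (M : MMPP p)

/-- `D = diag(lam)` -/
def D : Matrix (Fin p) (Fin p) ℝ := Matrix.diagonal M.lam

/-- `C = Q - D` -/
def C : Matrix (Fin p) (Fin p) ℝ := M.Q - M.D

/-- `piv` is the stationary row vector of `Q`. -/
structure IsStat (piv : Fin p → ℝ) : Prop where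
  nonneg : ∀ i, 0 ≤ piv i
  stat : piv ᵥ* M.Q = 0
  sum_one : ∑ i, piv i = 1

end MMPP

end Pool.R957.Mmpp
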