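import Mathlib
import Pool.Agent.R957.Mmpp.Defs

namespace Pool.R957.Mmpp

open Matrix

namespace MMPP

variable {p : ℕ} (M : MMPP p)

lemma C_apply_mulVec (v : Fin p → ℝ) (i : Fin p) :
    (M.C *ᵥ v) i = ∑ j, M.Q i j * v j - M.lam i * v i := by
  unfold C D
  rw [Matrix.sub_mulVec, Pi.sub_apply, Matrix.mulVec_diagonal]
  rfl

/-- Minimum principle. -/
lemma min_principle (v : Fin p → ℝ) (h : ∀ i, (M.C *ᵥ v) i ≤ 0) : ∀ i, 0 ≤ v i := by
  classical
  obtain ⟨k, hk⟩ := M.lam_ne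
  obtain ⟨i0, -, hi0⟩ := Finset.exists_min_image (Finset.univ : Finset (Fin p)) v ⟨k, Finset.mem_univ _⟩
  by_contra hcon
  push Not at hcon
  obtain ⟨i1, hi1⟩ := hcon
  have hm : v i0 < 0 := lt_of_le_of_lt (hi0 i1 (Finset.mem_univ _)) hi1
  -- key: at minimisers everything vanishes
  have key : ∀ i, v i = v i0 → M.lam i = 0 ∧ ∀ j, 0 < M.Q i j → v j = v i0 := by
    intro i hi
    have h1 := h i
    rw [C_apply_mulVec] at h1
    have h2 : ∑ j, M.Q i j * v j = ∑ j, M.Q i j * (v j - v i0) := by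
      have : ∑ j, M.Q i j * (v j - v i0) = ∑ j, M.Q i j * v j - (∑ j, M.Q i j) * v i0 := by
        rw [Finset.sum_mul, ← Finset.sum_sub_distrib]
        apply Finset.sum_congr rfl; intro j _; ring
      rw [this, M.gen.rowsum]; ring
    rw [h2] at h1
    have h3 : ∀ j ∈ (Finset.univ : Finset (Fin p)), 0 ≤ M.Q i j * (v j - v i0) := by
      intro j _
      by_cases hij : i = j
      · subst hij; rw [hi]; simp
      · exact mul_nonneg (M.gen.offdiag i j hij) (sub_nonneg.2 (hi0 j (Finset.mem_univ _)))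
    have h4 := Finset.sum_nonneg h3
    have h5 : 0 ≤ - (M.lam i * v i) := by
      rw [hi]
      have := M.lam_nonneg i
      nlinarith
    have h6 : ∑ j, M.Q i j * (v j - v i0) = 0 := by linarith
    have h7 : M.lam i * v i = 0 := by linarith
    refine ⟨?_, ?_⟩
    · rcases mul_eq_zero.1 h7 with h8 | h8
      · exact h8
      · rw [hi] at h8; linarith
    · intro j hj
      have h8 := (Finset.sum_eq_zero_iff_of_nonneg h3).1 h6 j (Finset.mem_univ _)
      rcases mul_eq_zero.1 h8 with h9 | h9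
      · linarith
      · linarith
  have hall : ∀ j, v j = v i0 := by
    intro j
    have := M.gen.irred i0 j
    induction this with
    | refl => rfl
    | tail _ hbc ih => exact (key _ ih).2 _ hbc
  exact hk (key k (hall k)).1

lemma C_isUnit_det : IsUnit M.C.det := by
  rw [← Matrix.isUnit_iff_isUnit_det, ← Matrix.mulVec_injective_iff_isUnit]
  intro v w hvw
  have h1 : M.C *ᵥ (v - w) = 0 := by
    rw [Matrix.mulVec_sub, sub_eq_zero]; exact hvw
  have h2 : M.C *ᵥ (w - v) = 0 := by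
    rw [Matrix.mulVec_sub, sub_eq_zero]; exact hvw.symm
  have h3 := M.min_principle (v - w) (by intro i; rw [h1]; simp)
  have h4 := M.min_principle (w - v) (by intro i; rw [h2]; simp)
  funext i
  have h5 := h3 i
  have h6 := h4 i
  simp only [Pi.sub_apply] at h5 h6
  linarith

/-- The mean-time vector `x = (-C)⁻¹ 1`. -/
noncomputable def xv : Fin p → ℝ := - (M.C⁻¹ *ᵥ 1)

lemma C_xv : M.C *ᵥ M.xv = -1 := by
  unfold xv
  rw [Matrix.mulVec_neg, Matrix.mulVec_mulVec, Matrix.mul_nonsing_inv _ M.C_isUnit_det,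
    Matrix.one_mulVec]

lemma xv_pos (i : Fin p) : 0 < M.xv i := by
  have h0 : ∀ j, 0 ≤ M.xv j := M.min_principle M.xv (by intro j; rw [C_xv]; simp)
  rcases (h0 i).lt_or_eq with h | h
  · exact h
  · exfalso
    have h1 := congrFun M.C_xv i
    rw [C_apply_mulVec, ← h] at h1
    simp only [mul_zero, sub_zero, Pi.neg_apply, Pi.one_apply] at h1
    have h2 : 0 ≤ ∑ j, M.Q i j * M.xv j := by
      apply Finset.sum_nonneg
      intro j _
      by_cases hij : i = j
      · subst hij; rw [← h]; simp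
      · exact mul_nonneg (M.gen.offdiag i j hij) (h0 j)
    linarith

lemma lam_ge (i : Fin p) :
    (M.xv i)⁻¹ + ∑ j, M.Q i j * Real.log (M.xv j) ≤ M.lam i := by
  have hx := M.xv_pos i
  have h1 := congrFun M.C_xv i
  rw [C_apply_mulVec] at h1
  simp only [Pi.neg_apply, Pi.one_apply] at h1
  have h2 : M.lam i = (M.xv i)⁻¹ + ∑ j, M.Q i j * (M.xv j / M.xv i) := by
    have : ∑ j, M.Q i j * (M.xv j / M.xv i) = (∑ j, M.Q i j * M.xv j) / M.xv i := by
      rw [Finset.sum_div]; apply Finset.sum_congr rfl; intro j _; ring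
    rw [this]
    field_simp
    linarith
  have h3 : ∑ j, M.Q i j * Real.log (M.xv j) ≤ ∑ j, M.Q i j * (M.xv j / M.xv i) := by
    have h4 : ∑ j, M.Q i j * Real.log (M.xv j)
        = ∑ j, M.Q i j * (Real.log (M.xv j) - Real.log (M.xv i) + 1) := by
      have : ∑ j, M.Q i j * (Real.log (M.xv j) - Real.log (M.xv i) + 1)
          = ∑ j, M.Q i j * Real.log (M.xv j) + (∑ j, M.Q i j) * (1 - Real.log (M.xv i)) := by
        rw [Finset.sum_mul, ← Finset.sum_add_distrib]
        apply Finset.sum_congr rfl; intro j _; ring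
      rw [this, M.gen.rowsum]; ring
    rw [h4]
    apply Finset.sum_le_sum
    intro j _
    by_cases hij : i = j
    · subst hij
      rw [div_self hx.ne']; simp
    · apply mul_le_mul_of_nonneg_left _ (M.gen.offdiag i j hij)
      have h5 := Real.add_one_le_exp (Real.log (M.xv j / M.xv i))
      rw [Real.exp_log (div_pos (M.xv_pos j) hx), Real.log_div (M.xv_pos j).ne' hx.ne'] at h5
      exact h5
  linarith

theorem cox {piv : Fin p → ℝ} (hp : M.IsStat piv) :
    1 ≤ (piv ⬝ᵥ (M.C *ᵥ 1)) * (piv ⬝ᵥ (M.C⁻¹ *ᵥ 1)) := by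
  have hA : piv ⬝ᵥ (M.C *ᵥ 1) = - ∑ i, piv i * M.lam i := by
    rw [dotProduct, ← Finset.sum_neg_distrib]
    apply Finset.sum_congr rfl
    intro i _
    rw [C_apply_mulVec]
    simp [M.gen.rowsum]
  have hB : piv ⬝ᵥ (M.C⁻¹ *ᵥ 1) = - ∑ i, piv i * M.xv i := by
    rw [dotProduct, ← Finset.sum_neg_distrib]
    apply Finset.sum_congr rfl
    intro i _
    simp [xv]
  rw [hA, hB, neg_mul_neg]
  set S := ∑ i, piv i * M.xv i with hS
  have hSpos : 0 < S := by
    have hne : ∃ i, piv i ≠ 0 := by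
      by_contra hcon
      push Not at hcon
      have := hp.sum_one
      simp [hcon] at this
    obtain ⟨i, hi⟩ := hne
    refine Finset.sum_pos' (fun j _ => mul_nonneg (hp.nonneg j) (M.xv_pos j).le) ⟨i, Finset.mem_univ _, ?_⟩
    exact mul_pos (lt_of_le_of_ne (hp.nonneg i) (Ne.symm hi)) (M.xv_pos i)
  have h1 : ∑ i, piv i * (M.xv i)⁻¹ ≤ ∑ i, piv i * M.lam i := by
    have h2 : ∑ i, piv i * ((M.xv i)⁻¹ + ∑ j, M.Q i j * Real.log (M.xv j)) ≤ ∑ i, piv i * M.lam i :=
      Finset.sum_le_sum fun i _ => mul_le_mul_of_nonneg_left (M.lam_ge i) (hp.nonneg i)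
    have h3 : ∑ i, piv i * ∑ j, M.Q i j * Real.log (M.xv j) = 0 := by
      have h4 : ∑ i, piv i * ∑ j, M.Q i j * Real.log (M.xv j)
          = (piv ᵥ* M.Q) ⬝ᵥ (fun j => Real.log (M.xv j)) := by
        rw [← Matrix.dotProduct_mulVec]
        rfl
      rw [h4, hp.stat]; simp
    have h5 : ∑ i, piv i * ((M.xv i)⁻¹ + ∑ j, M.Q i j * Real.log (M.xv j))
        = ∑ i, piv i * (M.xv i)⁻¹ + ∑ i, piv i * ∑ j, M.Q i j * Real.log (M.xv j) := by
      rw [← Finset.sum_add_distrib]
      apply Finset.sum_congr rfl; intro i _; ring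
    rw [h5, h3, add_zero] at h2
    exact h2
  have h2 : S⁻¹ ≤ ∑ i, piv i * (M.xv i)⁻¹ := by
    have h3 : ∀ i, piv i * (2 * S⁻¹ - M.xv i * (S⁻¹) ^ 2) ≤ piv i * (M.xv i)⁻¹ := by
      intro i
      apply mul_le_mul_of_nonneg_left _ (hp.nonneg i)
      have hx := M.xv_pos i
      have h4 : (M.xv i)⁻¹ - (2 * S⁻¹ - M.xv i * (S⁻¹) ^ 2) = (M.xv i - S) ^ 2 / (M.xv i * S ^ 2) := by
        field_simp
        ring
      have h5 : 0 ≤ (M.xv i - S) ^ 2 / (M.xv i * S ^ 2) := by positivity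
      linarith
    have h4 := Finset.sum_le_sum fun i (_ : i ∈ Finset.univ) => h3 i
    have h5 : ∑ i, piv i * (2 * S⁻¹ - M.xv i * (S⁻¹) ^ 2) = S⁻¹ := by
      have : ∑ i, piv i * (2 * S⁻¹ - M.xv i * (S⁻¹) ^ 2)
          = (∑ i, piv i) * (2 * S⁻¹) - S * (S⁻¹) ^ 2 := by
        rw [hS, Finset.sum_mul, Finset.sum_mul, ← Finset.sum_sub_distrib]
        apply Finset.sum_congr rfl; intro i _; ring
      rw [this, hp.sum_one]
      field_simp
      ring
    linarith
  have h3 : S⁻¹ ≤ ∑ i, piv i * M.lam i := h2.trans h1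
  calc (1 : ℝ) = S⁻¹ * S := by field_simp
    _ ≤ (∑ i, piv i * M.lam i) * S := mul_le_mul_of_nonneg_right h3 hSpos.le

end MMPP

end Pool.R957.Mmpp
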