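import Mathlib
import Pool.Agent.R957.Mmpp.Defs

namespace Pool.R957.Mmpp

open Matrix

/-- `alpha = pi D / (pi D 1)`. -/
noncomputable def MMPP.alpha {p : ℕ} (M : MMPP p) (piv : Fin p → ℝ) : Fin p → ℝ :=
  (piv ⬝ᵥ (M.D *ᵥ 1))⁻¹ • (piv ᵥ* M.D)

/-- Survival function of the first event time from initial law `eta`. -/
noncomputable def MMPP.surv {p : ℕ} (M : MMPP p) (eta : Fin p → ℝ) (t : ℝ) : ℝ :=
  eta ⬝ᵥ (NormedSpace.exp (t • M.C) *ᵥ 1)

namespace Ex

/-- jump rates (integers) -/
def rz (i : Fin 20) : ℤ := if i.val < 9 then 3 else 5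

/-- arrival rates -/
def lz (i : Fin 20) : ℤ := if i.val < 9 then 2 else 0

/-- cyclic jump matrix -/
noncomputable def N : Matrix (Fin 20) (Fin 20) ℝ := Matrix.of fun i j => if j = i + 1 then (rz i : ℝ) else 0

lemma rz_pos (i : Fin 20) : 0 < rz i := by unfold rz; split_ifs <;> norm_num

lemma succ_ne (i : Fin 20) : i + 1 ≠ i := by
  revert i; decide

lemma N_sum (i : Fin 20) (v : Fin 20 → ℝ) : ∑ j, N i j * v j = (rz i : ℝ) * v (i + 1) := by
  unfold N
  simp [Matrix.of_apply]

/-- the example -/
noncomputable def M : MMPP 20 where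
  Q := N - Matrix.diagonal (fun i => (rz i : ℝ))
  lam := fun i => (lz i : ℝ)
  gen :=
    { offdiag := by
        intro i j hij
        have : (0 : ℝ) ≤ rz i := by exact_mod_cast (rz_pos i).le
        simp only [Matrix.sub_apply, Matrix.diagonal_apply_ne _ hij, sub_zero, N, Matrix.of_apply]
        split_ifs
        · exact this
        · exact le_refl _
      rowsum := by
        intro i
        have h := N_sum i 1
        simp only [Pi.one_apply, mul_one] at h
        simp [Finset.sum_sub_distrib, h, Matrix.diagonal_apply]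
      irred := by
        intro i j
        have hstep : ∀ a : Fin 20, 0 < (N - Matrix.diagonal (fun i => (rz i : ℝ))) a (a + 1) := by
          intro a
          have : (0 : ℝ) < rz a := by exact_mod_cast (rz_pos a)
          rw [Matrix.sub_apply, Matrix.diagonal_apply_ne _ (succ_ne a).symm]
          simpa [N] using this
        have hk : ∀ k : ℕ, Relation.ReflTransGen
            (fun a b => 0 < (N - Matrix.diagonal (fun i => (rz i : ℝ))) a b) i (i + Fin.ofNat 20 k) := by
          intro k
          induction k with
          | zero =>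
            have : i + Fin.ofNat 20 0 = i := by
              apply Fin.ext; simp
            rw [this]
          | succ k ih =>
            refine ih.tail ?_
            have h := hstep (i + Fin.ofNat 20 k)
            have h2 : i + Fin.ofNat 20 k + 1 = i + Fin.ofNat 20 (k + 1) := by
              rw [add_assoc]
              congr 1
              apply Fin.ext
              simp [Fin.add_def]
            rw [h2] at h
            exact h
        have h := hk (j - i).val
        have h2 : i + Fin.ofNat 20 (j - i).val = j := by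
          have : Fin.ofNat 20 (j - i).val = j - i := by
            apply Fin.ext; simp
          rw [this]; simp
        rw [h2] at h
        exact h }
  lam_nonneg := by
    intro i
    have : 0 ≤ lz i := by unfold lz; split_ifs <;> norm_num
    exact_mod_cast this
  lam_ne := ⟨0, by simp [lz]⟩

/-- stationary law -/
noncomputable def piv (i : Fin 20) : ℝ := if i.val < 9 then 5 / 78 else 1 / 26

lemma piv_rz (i : Fin 20) : piv i * (rz i : ℝ) = 5 / 26 := by
  unfold piv rz
  split_ifs <;> norm_num

lemma sum_split (f : Fin 20 → ℝ) (a b : ℝ) :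
    (∑ i, if i.val < 9 then a * f i else b * f i)
      = a * (∑ i ∈ Finset.univ.filter (fun i : Fin 20 => i.val < 9), f i)
        + b * (∑ i ∈ Finset.univ.filter (fun i : Fin 20 => ¬ i.val < 9), f i) := by
  rw [Finset.sum_ite, Finset.mul_sum, Finset.mul_sum]

lemma isStat : M.IsStat piv where
  nonneg := by intro i; unfold piv; split_ifs <;> norm_num
  stat := by
    funext j
    have h1 : (piv ᵥ* M.Q) j = ∑ i, piv i * N i j - piv j * (rz j : ℝ) := by
      change (piv ᵥ* (N - Matrix.diagonal (fun i => (rz i : ℝ)))) j = _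
      rw [Matrix.vecMul_sub, Pi.sub_apply, Matrix.vecMul_diagonal]
      rfl
    have h2 : ∑ i, piv i * N i j = 5 / 26 := by
      have h3 : ∀ i, piv i * N i j = if i = j - 1 then 5 / 26 else 0 := by
        intro i
        unfold N
        simp only [Matrix.of_apply]
        by_cases hij : j = i + 1
        · have : i = j - 1 := by rw [hij]; simp
          rw [if_pos hij, if_pos this, piv_rz]
        · have : ¬ i = j - 1 := by
            intro h; apply hij; rw [h]; simp
          rw [if_neg hij, if_neg this, mul_zero]
      simp [h3]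
    rw [h1, h2, piv_rz]; simp
  sum_one := by
    have h := sum_split (fun _ => 1) (5/78) (1/26)
    simp only [mul_one, Finset.sum_const] at h
    unfold piv
    rw [h]
    have h1 : (Finset.univ.filter (fun i : Fin 20 => i.val < 9)).card = 9 := by decide
    have h2 : (Finset.univ.filter (fun i : Fin 20 => ¬ i.val < 9)).card = 11 := by decide
    rw [h1, h2]; norm_num

lemma C_eq : M.C = N + (-5 : ℝ) • (1 : Matrix (Fin 20) (Fin 20) ℝ) := by
  unfold MMPP.C MMPP.D
  change N - Matrix.diagonal (fun i => (rz i : ℝ)) - Matrix.diagonal (fun i => (lz i : ℝ)) = _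
  rw [sub_sub, Matrix.diagonal_add, sub_eq_add_neg, Matrix.smul_one_eq_diagonal, Matrix.diagonal_neg]
  congr 2
  funext i
  have : rz i + lz i = 5 := by unfold rz lz; split_ifs <;> norm_num
  have h : (rz i : ℝ) + (lz i : ℝ) = 5 := by exact_mod_cast this
  rw [h]

/-- the vector `N^n 1`, with integer entries -/
def P : ℕ → Fin 20 → ℤ
  | 0, _ => 1
  | n + 1, i => rz i * P n (i + 1)

lemma N_pow (n : ℕ) : (N ^ n) *ᵥ 1 = fun i => (P n i : ℝ) := by
  induction n with
  | zero => funext i; simp [P]
  | succ n ih =>
    rw [pow_succ', ← Matrix.mulVec_mulVec, ih]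
    funext i
    rw [Matrix.mulVec, dotProduct, N_sum]
    simp [P]

/-- `234 (pi - alpha)` -/
def bz (i : Fin 20) : ℤ := if i.val < 9 then -11 else 9

/-- alpha -/
lemma alpha_eq (i : Fin 20) : piv i - M.alpha piv i = (bz i : ℝ) / 234 := by
  have h1 : piv ⬝ᵥ (M.D *ᵥ 1) = 45 / 39 := by
    have h := sum_split (fun _ => 1) (5/78 * 2) (0)
    simp only [mul_one, Finset.sum_const] at h
    have h1 : (Finset.univ.filter (fun i : Fin 20 => i.val < 9)).card = 9 := by decide
    have h3 : piv ⬝ᵥ (M.D *ᵥ 1) = ∑ i : Fin 20, if i.val < 9 then (5/78 * 2 : ℝ) else 0 := by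
      rw [dotProduct]
      apply Finset.sum_congr rfl
      intro i _
      change piv i * (Matrix.diagonal (fun i => (lz i : ℝ)) *ᵥ 1) i = _
      rw [Matrix.mulVec_diagonal]
      unfold piv lz
      split_ifs <;> norm_num
    rw [h3, h, h1]; norm_num
  unfold MMPP.alpha
  rw [h1, Pi.smul_apply]
  change piv i - (45/39 : ℝ)⁻¹ • (piv ᵥ* Matrix.diagonal (fun i => (lz i : ℝ))) i = _
  rw [Matrix.vecMul_diagonal]
  unfold piv lz bz
  split_ifs <;> norm_num

end Ex

end Pool.R957.Mmpp
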