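import Mathlib
import Pool.Agent.R957.Mmpp.Order

namespace Pool.R957.Mmpp

open Matrix

namespace Ex

/-- `beta = pi - alpha` -/
noncomputable def beta (i : Fin 20) : ℝ := (bz i : ℝ) / 234

/-- the additive functional `A ↦ beta A 1` -/
noncomputable def L : Matrix (Fin 20) (Fin 20) ℝ →+ ℝ where
  toFun A := beta ⬝ᵥ (A *ᵥ 1)
  map_zero' := by simp
  map_add' A B := by rw [Matrix.add_mulVec, dotProduct_add]

lemma L_cont : Continuous L := by
  change Continuous fun A : Matrix (Fin 20) (Fin 20) ℝ => beta ⬝ᵥ (A *ᵥ 1)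
  fun_prop

section
open scoped Norms.Operator
set_option backward.isDefEq.respectTransparency false in
lemma hasSum_exp (A : Matrix (Fin 20) (Fin 20) ℝ) :
    HasSum (fun n : ℕ => ((n.factorial : ℝ)⁻¹) • A ^ n) (NormedSpace.exp A) :=
  NormedSpace.exp_series_hasSum_exp' (𝕂 := ℝ) A
end

lemma hasSum_L (A : Matrix (Fin 20) (Fin 20) ℝ) :
    HasSum (fun n : ℕ => L (((n.factorial : ℝ)⁻¹) • A ^ n)) (L (NormedSpace.exp A)) :=
  (hasSum_exp A).map L L_cont

/-- integer value of `234 beta N^n 1` -/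
def bP (n : ℕ) : ℤ := ∑ i : Fin 20, bz i * P n i

lemma L_term (n : ℕ) : L (((n.factorial : ℝ)⁻¹) • (((4 : ℝ) • N) ^ n))
    = (n.factorial : ℝ)⁻¹ * 4 ^ n * ((bP n : ℤ) : ℝ) / 234 := by
  change beta ⬝ᵥ ((((n.factorial : ℝ)⁻¹) • (((4 : ℝ) • N) ^ n)) *ᵥ 1) = _
  rw [smul_pow, smul_smul, Matrix.smul_mulVec, N_pow, dotProduct_smul, dotProduct, smul_eq_mul]
  have : ∑ i, beta i * (P n i : ℝ) = ((bP n : ℤ) : ℝ) / 234 := by
    unfold bP beta
    push_cast
    rw [Finset.sum_div]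
    apply Finset.sum_congr rfl
    intro i _
    ring
  rw [this]
  ring

lemma P_nonneg (n : ℕ) : ∀ i, 0 ≤ P n i := by
  induction n with
  | zero => intro i; simp [P]
  | succ n ih => intro i; simp only [P]; exact mul_nonneg (rz_pos i).le (ih _)

lemma P_le (n : ℕ) : ∀ i, P n i ≤ 5 ^ n := by
  induction n with
  | zero => intro i; simp [P]
  | succ n ih =>
    intro i
    simp only [P]
    rw [pow_succ']
    apply mul_le_mul _ (ih _) (P_nonneg n _) (by norm_num)
    unfold rz; split_ifs <;> norm_num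

lemma bP_le (n : ℕ) : bP n ≤ 99 * 5 ^ n := by
  have h : ∀ i : Fin 20, bz i * P n i ≤ (if i.val < 9 then 0 else 9) * 5 ^ n := by
    intro i
    have h1 := P_nonneg n i
    have h2 := P_le n i
    unfold bz
    split_ifs
    · nlinarith
    · nlinarith
  calc bP n ≤ ∑ i : Fin 20, (if i.val < 9 then 0 else 9) * (5 : ℤ) ^ n :=
        Finset.sum_le_sum fun i _ => h i
    _ = (∑ i : Fin 20, (if i.val < 9 then 0 else 9 : ℤ)) * 5 ^ n := by rw [Finset.sum_mul]
    _ = 99 * 5 ^ n := by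
        have : (∑ i : Fin 20, (if i.val < 9 then 0 else 9 : ℤ)) = 99 := by decide
        rw [this]

/-- nonnegative comparison term (integer, to be divided by `234 n!`) -/
def T (n : ℕ) : ℤ := 99 * 20 ^ n - 4 ^ n * bP n

lemma T_nonneg (n : ℕ) : 0 ≤ T n := by
  unfold T
  have h := bP_le n
  have h2 : (4 : ℤ) ^ n * bP n ≤ 4 ^ n * (99 * 5 ^ n) := mul_le_mul_of_nonneg_left h (by positivity)
  have h3 : (4 : ℤ) ^ n * (99 * 5 ^ n) = 99 * 20 ^ n := by
    rw [show (20 : ℤ) = 4 * 5 by norm_num, mul_pow]; ring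
  linarith

lemma hasSum_T : HasSum (fun n : ℕ => ((T n : ℤ) : ℝ) / (234 * (n.factorial : ℝ)))
    (99 / 234 * Real.exp 20 - L (NormedSpace.exp ((4 : ℝ) • N))) := by
  have h1 : HasSum (fun n : ℕ => 99 / 234 * ((20 : ℝ) ^ n / (n.factorial : ℝ))) (99 / 234 * Real.exp 20) := by
    apply HasSum.mul_left
    rw [Real.exp_eq_exp_ℝ]
    exact NormedSpace.expSeries_div_hasSum_exp (20 : ℝ)
  have h2 := hasSum_L ((4 : ℝ) • N)
  have h3 := h1.sub h2
  have h4 : (fun n : ℕ => ((T n : ℤ) : ℝ) / (234 * (n.factorial : ℝ)))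
      = fun n : ℕ => 99 / 234 * ((20 : ℝ) ^ n / (n.factorial : ℝ))
        - L (((n.factorial : ℝ)⁻¹) • (((4 : ℝ) • N) ^ n)) := by
    funext n
    rw [L_term]
    have hf : (n.factorial : ℝ) ≠ 0 := by exact_mod_cast n.factorial_ne_zero
    unfold T
    push_cast
    field_simp
  rw [h4]
  exact h3

/-- the finite integer inequality -/
lemma finite_ineq :
    99 * (Nat.factorial 40 : ℤ) * 27182818286 ^ 20
      < 10 ^ 200 * ∑ n ∈ Finset.range 41, T n * ((Nat.factorial 40 / Nat.factorial n : ℕ) : ℤ) := by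
  decide +kernel

lemma L_neg : L (NormedSpace.exp ((4 : ℝ) • N)) < 0 := by
  have h1 := sum_le_hasSum (Finset.range 41)
    (fun n _ => div_nonneg (by exact_mod_cast T_nonneg n) (by positivity)) hasSum_T
  have h2 : ∑ n ∈ Finset.range 41, ((T n : ℤ) : ℝ) / (234 * (n.factorial : ℝ))
      = (∑ n ∈ Finset.range 41, ((T n : ℤ) : ℝ) * (((Nat.factorial 40 / Nat.factorial n : ℕ) : ℤ) : ℝ))
        / (234 * (Nat.factorial 40 : ℝ)) := by
    rw [Finset.sum_div]
    apply Finset.sum_congr rfl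
    intro n hn
    have hn' : n ≤ 40 := by have := Finset.mem_range.1 hn; omega
    have hf : (n.factorial : ℝ) ≠ 0 := by exact_mod_cast n.factorial_ne_zero
    have hf2 : (Nat.factorial 40 : ℝ) ≠ 0 := by exact_mod_cast Nat.factorial_ne_zero 40
    have hdvd := Nat.factorial_dvd_factorial hn'
    have hc : (((Nat.factorial 40 / Nat.factorial n : ℕ) : ℤ) : ℝ) = (Nat.factorial 40 : ℝ) / (n.factorial : ℝ) := by
      rw [Int.cast_natCast, Nat.cast_div hdvd hf]
    rw [hc]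
    rw [div_eq_div_iff (by positivity) (by positivity)]
    field_simp
  have h3 : (99 : ℝ) * (Nat.factorial 40 : ℝ) * 27182818286 ^ 20
      < 10 ^ 200 * ∑ n ∈ Finset.range 41, ((T n : ℤ) : ℝ) * (((Nat.factorial 40 / Nat.factorial n : ℕ) : ℤ) : ℝ) := by
    exact_mod_cast finite_ineq
  have h4 : Real.exp 20 ≤ (27182818286 : ℝ) ^ 20 / 10 ^ 200 := by
    have h5 : Real.exp 20 = Real.exp 1 ^ 20 := by rw [← Real.exp_nat_mul]; norm_num
    have h6 : Real.exp 1 ^ 20 ≤ (2.7182818286 : ℝ) ^ 20 :=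
      pow_le_pow_left₀ (Real.exp_pos 1).le Real.exp_one_lt_d9.le 20
    have h7 : (2.7182818286 : ℝ) ^ 20 = (27182818286 : ℝ) ^ 20 / 10 ^ 200 := by
      rw [show (10 : ℝ) ^ 200 = (10 ^ 10) ^ 20 by rw [← pow_mul], ← div_pow]; norm_num
    rw [h5]; exact h6.trans h7.le
  rw [h2] at h1
  set Sg := ∑ n ∈ Finset.range 41, ((T n : ℤ) : ℝ) * (((Nat.factorial 40 / Nat.factorial n : ℕ) : ℤ) : ℝ) with hSg
  have hpos : (0 : ℝ) < (Nat.factorial 40 : ℝ) := by positivity
  have h5 : 99 / 234 * Real.exp 20 < Sg / (234 * (Nat.factorial 40 : ℝ)) := by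
    calc 99 / 234 * Real.exp 20 ≤ 99 / 234 * ((27182818286 : ℝ) ^ 20 / 10 ^ 200) :=
          mul_le_mul_of_nonneg_left h4 (by norm_num)
      _ < Sg / (234 * (Nat.factorial 40 : ℝ)) := by
          rw [div_mul_div_comm, div_lt_div_iff₀ (by positivity) (by positivity)]
          nlinarith [h3]
  linarith

lemma exp_C : NormedSpace.exp ((4 : ℝ) • M.C) = Real.exp (-20) • NormedSpace.exp ((4 : ℝ) • N) := by
  have h1 : (4 : ℝ) • M.C = (4 : ℝ) • N + Matrix.diagonal (fun _ => (-20 : ℝ)) := by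
    rw [C_eq, smul_add, smul_smul, Matrix.smul_one_eq_diagonal]
    norm_num
  have h2 : Commute ((4 : ℝ) • N) (Matrix.diagonal (fun _ : Fin 20 => (-20 : ℝ))) := by
    rw [← Matrix.smul_one_eq_diagonal]
    exact (Commute.one_right _).smul_right _
  rw [h1, Matrix.exp_add_of_commute _ _ h2, Matrix.exp_diagonal]
  have h3 : NormedSpace.exp (fun _ : Fin 20 => (-20 : ℝ)) = fun _ => Real.exp (-20) := by
    funext i
    rw [Pi.coe_exp, Real.exp_eq_exp_ℝ]
  rw [h3, ← Matrix.smul_one_eq_diagonal, Matrix.mul_smul, mul_one]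

/-- The example violates the stochastic order at time `4`. -/
theorem order_fails : M.surv piv 4 < M.surv (M.alpha piv) 4 := by
  unfold MMPP.surv
  rw [← sub_neg, ← sub_dotProduct, exp_C, Matrix.smul_mulVec, dotProduct_smul, smul_eq_mul]
  have h1 : piv - M.alpha piv = beta := by
    funext i
    rw [Pi.sub_apply, alpha_eq]; rfl
  rw [h1]
  exact mul_neg_of_pos_of_neg (Real.exp_pos _) L_neg

end Ex

end Pool.R957.Mmpp
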